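import Pool.Agent.Helper80_RS2.Stmts
import Pool.Agent.Helper60_RS.Basic

/-!
# MP_ff6f12_co, squad RS2, module CNV: the converse
-/

set_option autoImplicit false

open SimpleGraph

namespace Pool.Agent.RS81.H39

open Pool.Agent.RS80

open Classical in
theorem cnv : CnvStmt := by
  intro V _ B ℓ hB hZ hs hE
  letI hfin : Fintype (V ⊕ Σ v, Fin (ℓ v)) := Fintype.ofFinite _
  -- the minimum degree of `pendL B ℓ` is at most one
  obtain ⟨z, hz⟩ := hZ
  have hdeg : @SimpleGraph.minDegree (V ⊕ Σ v, Fin (ℓ v)) (pendL B ℓ) (Fintype.ofFinite _) _ ≤ 1 := by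
    refine (@SimpleGraph.minDegree_le_degree (V ⊕ Σ v, Fin (ℓ v)) (pendL B ℓ)
      (Fintype.ofFinite _) _ (Sum.inr ⟨z, ⟨0, hz⟩⟩)).trans ?_
    have key : ∀ w, (pendL B ℓ).Adj (Sum.inr ⟨z, ⟨0, hz⟩⟩) w → w = Sum.inl z := by
      rintro (w | w) hw
      · have : w = z := hw
        rw [this]
      · exact hw.elim
    unfold SimpleGraph.degree
    rw [Finset.card_le_one]
    intro x hx y hy
    rw [SimpleGraph.mem_neighborFinset] at hx hy
    exact (key x hx).trans (key y hy).symm
  have hs1 : s2 (pendL B ℓ) = 1 := by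
    unfold RamseySimple at hs
    rw [hs]
    omega
  unfold s2 at hs1
  have hne : {d | ∃ (n : ℕ) (G : SimpleGraph (Fin n)), MinRamsey G (pendL B ℓ) ∧
      G.minDegree = d}.Nonempty := by
    rw [Set.nonempty_iff_ne_empty]
    intro h
    rw [h, Nat.sInf_empty] at hs1
    exact absurd hs1 (by norm_num)
  have hmem := Nat.sInf_mem hne
  rw [hs1] at hmem
  obtain ⟨n, G, ⟨hG, hmin⟩, hG1⟩ := hmem
  have hn : Nonempty (Fin n) := by
    by_contra h
    rw [not_nonempty_iff] at h
    rw [SimpleGraph.minDegree_of_subsingleton] at hG1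
    exact absurd hG1 (by norm_num)
  obtain ⟨u, hu⟩ := G.exists_minimal_degree_vertex
  rw [hG1] at hu
  obtain ⟨v, hv, huniq⟩ := (SimpleGraph.degree_eq_one_iff_existsUnique_adj).1 hu.symm
  -- delete the edge `u v`
  let G' : G.Subgraph :=
    { verts := Set.univ
      Adj := fun a b => G.Adj a b ∧ a ≠ u ∧ b ≠ u
      adj_sub := fun h => h.1
      edge_vert := fun _ => Set.mem_univ _
      symm := ⟨fun _ _ h => ⟨h.1.symm, h.2.2, h.2.1⟩⟩ }
  let G'' : SimpleGraph (Fin n) :=
    { Adj := fun a b => G.Adj a b ∧ a ≠ u ∧ b ≠ u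
      symm := ⟨fun _ _ h => ⟨h.1.symm, h.2.2, h.2.1⟩⟩
      loopless := ⟨fun _ h => G.loopless.irrefl _ h.1⟩ }
  have h1 : ¬ Arrows G'.coe (pendL B ℓ) := by
    apply hmin
    intro h
    have : G'.Adj u v := by
      rw [h]; exact hv
    exact this.2.1 rfl
  have h2 : ¬ Arrows G'' (pendL B ℓ) := by
    intro h
    apply h1
    refine RS80.H60.arrows_mono ?_ h
    refine ⟨⟨⟨fun a => ⟨a, Set.mem_univ a⟩, ?_⟩, ?_⟩⟩
    · intro a b hab
      exact hab
    · intro a b hab
      exact congrArg Subtype.val hab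
  rw [← hE n G''] at h2
  rw [RS80.H60.not_arrows_iff] at h2
  obtain ⟨R, S, hRS, hR, hS⟩ := h2
  have hRu : ∀ x, ¬ R.Adj u x := by
    intro x hx
    have : G''.Adj u x := by rw [← hRS]; exact Or.inl hx
    exact this.2.1 rfl
  have hfree : B.Free (R ⊔ edge u v) := by
    rintro ⟨f⟩
    by_cases hex : ∃ w, f w = u
    · obtain ⟨w, hw⟩ := hex
      obtain ⟨w1, w2, hne, ha1, ha2⟩ := RS80.H60.two_nbrs hB w
      have key : ∀ x, B.Adj w x → f x = v := by
        intro x hx
        rcases (f.toHom.map_rel hx : (R ⊔ edge u v).Adj (f w) (f x)) with h | h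
        · have h' : R.Adj (f w) (f x) := h
          rw [hw] at h'
          exact absurd h' (hRu _)
        · rw [edge_adj] at h
          rcases h.1 with h3 | h3
          · exact h3.2
          · exact absurd (hw.symm.trans h3.1) hv.ne
      exact hne (f.injective' ((key w1 ha1).trans (key w2 ha2).symm))
    · push Not at hex
      apply hR
      refine ⟨⟨⟨f, ?_⟩, f.injective'⟩⟩
      intro a b hab
      rcases (f.toHom.map_rel hab : (R ⊔ edge u v).Adj (f a) (f b)) with h | h
      · exact h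
      · rw [edge_adj] at h
        rcases h.1 with h3 | h3
        · exact absurd h3.1 (hex a)
        · exact absurd h3.2 (hex b)
  have hC : InC B G := by
    refine ⟨R ⊔ edge u v, S, ?_, hfree, hS⟩
    rw [sup_right_comm, hRS]
    ext a b
    rw [SimpleGraph.sup_adj, edge_adj]
    constructor
    · rintro (h | ⟨⟨rfl, rfl⟩ | ⟨rfl, rfl⟩, _⟩)
      · exact h.1
      · exact hv
      · exact hv.symm
    · intro h
      by_cases ha : a = u
      · right
        subst ha
        exact ⟨Or.inl ⟨rfl, huniq b h⟩, h.ne⟩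
      · by_cases hb : b = u
        · right
          subst hb
          exact ⟨Or.inr ⟨huniq a h.symm, rfl⟩, h.ne⟩
        · exact Or.inl ⟨h, ha, hb⟩
  exact (RS80.H60.not_arrows_iff.2 hC) ((hE n G).2 hG)

end Pool.Agent.RS81.H39
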