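import Pool.Agent.Helper80_RS2.Stmts
import Pool.Agent.Helper39_RS.Mix

/-!
# MP_ff6f12_co, squad RS2, module MIX: the mixed gadget with a rich root
-/

set_option autoImplicit false

open SimpleGraph

namespace Pool.Agent.RS81.H39

open Pool.Agent.RS80 Pool.Agent.RS80.H39

/-- Disjoint copies of `K` indexed by `ι`. -/
def cpi (ι : Type) {X : Type} (K : SimpleGraph X) : SimpleGraph (ι × X) where
  Adj a b := a.1 = b.1 ∧ K.Adj a.2 b.2
  symm := ⟨fun _ _ h => ⟨h.1.symm, h.2.symm⟩⟩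
  loopless := ⟨fun _ h => K.loopless.irrefl _ h.2⟩

lemma cpi_free {ι W X : Type} {H : SimpleGraph W} (hH : H.Connected) {K : SimpleGraph X}
    (hK : H.Free K) : H.Free (cpi ι K) := by
  rintro ⟨f⟩
  apply hK
  refine ⟨⟨⟨fun w => (f w).2, fun {a b} h => (f.toHom.map_rel h).2⟩, ?_⟩⟩
  intro a b hab
  apply f.injective'
  refine Prod.ext ?_ hab
  exact const_of_connected hH (fun w => (f w).1) (fun a b h => (f.toHom.map_rel h).1) a b

/-- The half statement for one colour. -/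
lemma half {ι W X : Type} [Finite ι] [Finite W] [Finite X] {H : SimpleGraph W}
    {K0 : SimpleGraph X}
    (hdeg : ∀ R S, Good H K0 R S → ∃ y, Nat.card W ≤ (S.neighborSet y).ncard)
    {G : SimpleGraph (ι × X)} (hG0 : cpi ι K0 ≤ G)
    (hmax : ∀ G', G ≤ G' → InC H G' → G' = G) {r : ι × X} {i : ι}
    (hi : ∀ x, (i, x) ≠ r ∧ ¬ G.Adj r (i, x)) {R S : SimpleGraph (ι × X)}
    (hRS : Good H G R S) : ∃ x, S.Adj r x := by
  classical
  by_contra hcon
  push Not at hcon
  set e : X → ι × X := fun x => (i, x) with he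
  have hinj : Function.Injective e := fun a b h => (Prod.mk.inj h).2
  have hgood : Good H K0 ((R.comap e) ⊓ K0) ((S.comap e) ⊓ K0) :=
    Good.restr hRS e hinj fun a b hab => hG0 (⟨rfl, hab⟩ : (cpi ι K0).Adj (e a) (e b))
  obtain ⟨y, hy⟩ := hdeg _ _ hgood
  have hne : r ≠ e y := (hi y).1.symm
  have hna : ¬ G.Adj r (e y) := (hi y).2
  have hcard : Nat.card W ≤ (S.neighborSet (e y)).ncard := by
    refine hy.trans ?_
    have h2 : e '' (((S.comap e) ⊓ K0).neighborSet y) ⊆ S.neighborSet (e y) := by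
      rintro _ ⟨x, hx, rfl⟩
      exact hx.1
    rw [← Set.ncard_image_of_injective _ hinj]
    exact Set.ncard_le_ncard h2 (Set.toFinite _)
  have hfree := free_sup_edge hRS.2.2 hcon hne hcard (Set.toFinite _)
  have hC : InC H (G ⊔ edge r (e y)) := by
    refine ⟨R, S ⊔ edge r (e y), ?_, hRS.2.1, hfree⟩
    rw [← sup_assoc, hRS.1]
  have h3 := hmax _ le_sup_left hC
  apply hna
  rw [← h3]
  right
  rw [edge_adj]
  exact ⟨Or.inl ⟨rfl, rfl⟩, hne⟩

/-- Two groups of copies: if every copy of the first group is joined to every copy of the second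
group, there is a large complete bipartite graph. -/
lemma exists_pair {X : Type} [Finite X] (t : ℕ) : ∃ T1 T2 : ℕ,
    ∀ G : SimpleGraph ((Fin T1 ⊕ Fin T2) × X),
      (∀ i j, ∃ x y, G.Adj (Sum.inl i, x) (Sum.inr j, y)) →
      completeBipartiteGraph (Fin t) (Fin t) ⊑ G := by
  classical
  have := Fintype.ofFinite X
  set T1 : ℕ := Fintype.card (X × X) * t + 1 with hT1
  set T2 : ℕ := Fintype.card (Fin T1 → X × X) * t + 1 with hT2
  refine ⟨T1, T2, fun G hG => ?_⟩
  choose fx fy hf using hG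
  obtain ⟨p, hp⟩ := Fintype.exists_lt_card_fiber_of_mul_lt_card
    (f := fun (j : Fin T2) => (fun i : Fin T1 => (fx i j, fy i j))) (n := t)
    (by rw [Fintype.card_fin, hT2]; omega)
  obtain ⟨⟨x, y⟩, hxy⟩ := Fintype.exists_lt_card_fiber_of_mul_lt_card
    (f := p) (n := t) (by rw [Fintype.card_fin, hT1]; omega)
  obtain ⟨I, hI, hIc⟩ := Finset.exists_subset_card_eq hxy.le
  obtain ⟨J, hJ, hJc⟩ := Finset.exists_subset_card_eq hp.le
  let eI := (I.equivFinOfCardEq hIc).symm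
  let eJ := (J.equivFinOfCardEq hJc).symm
  have hadj : ∀ i j : Fin t, G.Adj (Sum.inl (eI i).1, x) (Sum.inr (eJ j).1, y) := by
    intro i j
    have h1 := hI (eI i).2
    have h2 := hJ (eJ j).2
    rw [Finset.mem_filter] at h1 h2
    have h3 := congrFun h2.2 (eI i).1
    rw [h1.2] at h3
    have h4 := hf (eI i).1 (eJ j).1
    have h5 : fx (eI i).1 (eJ j).1 = x := (Prod.mk.inj h3).1
    have h6 : fy (eI i).1 (eJ j).1 = y := (Prod.mk.inj h3).2
    rwa [h5, h6] at h4
  refine ⟨⟨⟨Sum.elim (fun i => (Sum.inl (eI i).1, x)) (fun j => (Sum.inr (eJ j).1, y)), ?_⟩, ?_⟩⟩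
  · rintro (a | a) (b | b) h
    · simp at h
    · exact hadj a b
    · exact (hadj b a).symm
    · simp at h
  · rintro (a | a) (b | b) h
    · have h1 := (Prod.mk.inj h).1
      have h2 := Sum.inl_injective h1
      exact congrArg Sum.inl (eI.injective (Subtype.ext h2))
    · exact absurd (Prod.mk.inj h).1 (by simp)
    · exact absurd (Prod.mk.inj h).1 (by simp)
    · have h1 := (Prod.mk.inj h).1
      have h2 := Sum.inr_injective h1
      exact congrArg Sum.inr (eJ.injective (Subtype.ext h2))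

lemma pendL_connected {V : Type} {B : SimpleGraph V} (hB : B.Connected) (ℓ : V → ℕ) :
    (pendL B ℓ).Connected := by
  obtain ⟨v⟩ := hB.nonempty
  have h1 : ∀ u : V, (pendL B ℓ).Reachable (Sum.inl u) (Sum.inl v) := by
    intro u
    have := hB.preconnected u v
    let f : B →g pendL B ℓ := ⟨Sum.inl, fun {a b} h => h⟩
    exact this.map f
  have h2 : ∀ x, (pendL B ℓ).Reachable x (Sum.inl v) := by
    rintro (u | z)
    · exact h1 u
    · refine Reachable.trans ?_ (h1 z.1)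
      exact (show (pendL B ℓ).Adj (Sum.inr z) (Sum.inl z.1) from rfl).reachable
  have : Nonempty (V ⊕ Σ v, Fin (ℓ v)) := ⟨Sum.inl v⟩
  exact ⟨fun x y => (h2 x).trans (h2 y).symm⟩

lemma pendL_colorable {V : Type} {B : SimpleGraph V} (hc : B.Colorable 2) (ℓ : V → ℕ) :
    (pendL B ℓ).Colorable 2 := by
  obtain ⟨c⟩ := hc
  refine ⟨Coloring.mk (fun x => match x with
    | .inl u => c u
    | .inr z => c z.1 + 1) ?_⟩
  rintro (u | z) (v | w) h
  · exact c.valid h
  · have : u = w.1 := h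
    subst this
    change c w.1 ≠ c w.1 + 1
    generalize c w.1 = a
    revert a; decide
  · have : v = z.1 := h
    subst this
    change c z.1 + 1 ≠ c z.1
    generalize c z.1 = a
    revert a; decide
  · exact h.elim

theorem mix (ktt : KttStmt) (gon : GonStmt) : MixStmt := by
  classical
  intro V _ B ℓ hB hc d
  have hH : (pendL B ℓ).Connected := pendL_connected hB.2.1 ℓ
  obtain ⟨t, ht⟩ := ktt _ (pendL B ℓ) (pendL_colorable hc ℓ)
  obtain ⟨n, K0, ⟨R0, S0, h0⟩, hdeg⟩ := gon V B ℓ hB hc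
    (max d (Nat.card (V ⊕ Σ v, Fin (ℓ v))))
  obtain ⟨T1, T2, hT⟩ := exists_pair (X := Fin n) t
  -- an edge-maximal graph
  have hcp : InC (pendL B ℓ) (cpi (Fin T1 ⊕ Fin T2) K0) := by
    refine ⟨cpi _ R0, cpi _ S0, ?_, cpi_free hH h0.2.1, cpi_free hH h0.2.2⟩
    ext a b
    change (a.1 = b.1 ∧ R0.Adj a.2 b.2) ∨ (a.1 = b.1 ∧ S0.Adj a.2 b.2) ↔
      a.1 = b.1 ∧ K0.Adj a.2 b.2
    rw [← h0.1, SimpleGraph.sup_adj]
    tauto
  obtain ⟨G, hG⟩ := (Set.toFinite {G : SimpleGraph ((Fin T1 ⊕ Fin T2) × Fin n) |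
    cpi (Fin T1 ⊕ Fin T2) K0 ≤ G ∧ InC (pendL B ℓ) G}).exists_maximal ⟨_, le_rfl, hcp⟩
  have hmax : ∀ G', G ≤ G' → InC (pendL B ℓ) G' → G' = G := fun G' h1 h2 =>
    le_antisymm (hG.le_of_ge ⟨hG.prop.1.trans h1, h2⟩ h1) h1
  -- two copies with no edge between them
  have hex : ∃ i j, ∀ x y, ¬ G.Adj (Sum.inl i, x) (Sum.inr j, y) := by
    by_contra hcon
    push Not at hcon
    exact ht _ G hG.prop.2 (hT G hcon)
  obtain ⟨i, j, hij⟩ := hex
  -- the root
  obtain ⟨R, S, hRS⟩ := hG.prop.2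
  set e : Fin n → (Fin T1 ⊕ Fin T2) × Fin n := fun x => (Sum.inl i, x) with he
  have hinj : Function.Injective e := fun a b h => (Prod.mk.inj h).2
  obtain ⟨x, hx1, hx2⟩ := hdeg _ _ (Good.restr hRS e hinj fun a b hab =>
    hG.prop.1 (⟨rfl, hab⟩ : (cpi (Fin T1 ⊕ Fin T2) K0).Adj (e a) (e b)))
  have hcard : ∀ R : SimpleGraph ((Fin T1 ⊕ Fin T2) × Fin n),
      (((R.comap e) ⊓ K0).neighborSet x).ncard ≤ (R.neighborSet (e x)).ncard := by
    intro R
    have h2 : e '' (((R.comap e) ⊓ K0).neighborSet x) ⊆ R.neighborSet (e x) := by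
      rintro _ ⟨x, hx, rfl⟩
      exact hx.1
    rw [← Set.ncard_image_of_injective _ hinj]
    exact Set.ncard_le_ncard h2 (Set.toFinite _)
  have hi : ∀ y, ((Sum.inr j, y) : (Fin T1 ⊕ Fin T2) × Fin n) ≠ e x ∧
      ¬ G.Adj (e x) (Sum.inr j, y) := by
    intro y
    refine ⟨fun h => ?_, hij x y⟩
    exact absurd (Prod.mk.inj h).1 (by simp)
  refine ⟨_, inferInstance, G, e x, fun R S hRS => ⟨?_, ?_⟩, R, S, hRS, ?_, ?_⟩
  · refine half (fun R S h => ?_) hG.prop.1 hmax hi (good_swap hRS)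
    obtain ⟨y, hy, _⟩ := hdeg S R (good_swap h)
    exact ⟨y, (le_max_right _ _).trans hy⟩
  · refine half (fun R S h => ?_) hG.prop.1 hmax hi hRS
    obtain ⟨y, _, hy⟩ := hdeg R S h
    exact ⟨y, (le_max_right _ _).trans hy⟩
  · exact ((le_max_left _ _).trans hx1).trans (hcard R)
  · exact ((le_max_left _ _).trans hx2).trans (hcard S)

end Pool.Agent.RS81.H39
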